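import Mathlib

set_option autoImplicit false

/-!
# A bijection between the arcs of two strong tournaments preserving 4-circuits

`T₁` and `T₂` are two strong tournaments on five vertices which differ in the orientation of one
arc, an arc that lies on no 4-circuit of `T₁`.
-/

namespace Pool.Agent.Results.MP_ebd9af_co.FourCircuits

/-- `T u v` means that there is an arc from `u` to `v`. -/
def IsTournament {V : Type} (T : V → V → Prop) : Prop :=
  (∀ v, ¬ T v v) ∧ ∀ u v, u ≠ v → ((T u v ∧ ¬ T v u) ∨ (T v u ∧ ¬ T u v))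

/-- Any vertex can be reached from any vertex by a directed path. -/
def IsStrong {V : Type} (T : V → V → Prop) : Prop :=
  ∀ u v, Relation.ReflTransGen T u v

/-- The set of arcs. -/
abbrev Arc {V : Type} (T : V → V → Prop) : Type := {p : V × V // T p.1 p.2}

/-- `C` is the arc set of a directed cycle of length `k`. -/
def IsCircuit {V : Type} (T : V → V → Prop) (k : ℕ) (C : Set (Arc T)) : Prop :=
  3 ≤ k ∧ ∃ (v : ZMod k → V) (h : ∀ i, T (v i) (v (i + 1))), Function.Injective v ∧
    C = Set.range fun i => (⟨(v i, v (i + 1)), h i⟩ : Arc T)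

/-- The converse. -/
def conv {V : Type} (T : V → V → Prop) : V → V → Prop := fun u v => T v u

/-- Isomorphic digraphs. -/
def Isomorphic {V W : Type} (T : V → V → Prop) (S : W → W → Prop) : Prop :=
  ∃ e : V ≃ W, ∀ u v, T u v ↔ S (e u) (e v)

/-- The common arcs of the two tournaments. -/
def common : List (Fin 5 × Fin 5) :=
  [(0, 4), (1, 0), (2, 1), (3, 0), (3, 1), (3, 2), (4, 1), (4, 2), (4, 3)]

/-- The first tournament. -/
def T₁ (u v : Fin 5) : Prop := (u, v) ∈ (0, 2) :: common

/-- The second tournament. -/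
def T₂ (u v : Fin 5) : Prop := (u, v) ∈ (2, 0) :: common

instance : DecidableRel T₁ := fun u v => inferInstanceAs (Decidable ((u, v) ∈ (0, 2) :: common))

instance : DecidableRel T₂ := fun u v => inferInstanceAs (Decidable ((u, v) ∈ (2, 0) :: common))

theorem tour₁ : IsTournament T₁ := by
  refine ⟨by decide, by decide⟩

theorem tour₂ : IsTournament T₂ := by
  refine ⟨by decide, by decide⟩

theorem strong_of {T : Fin 5 → Fin 5 → Prop} (h : ∀ i : Fin 5, T i (i - 1)) : IsStrong T := by
  have key : ∀ (n : ℕ) (u : Fin 5), Relation.ReflTransGen T u ((fun x => x - 1)^[n] u) := by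
    intro n
    induction n with
    | zero => intro u; exact Relation.ReflTransGen.refl
    | succ n ih =>
      intro u
      refine (ih u).tail ?_
      rw [Function.iterate_succ_apply']
      exact h _
  have h2 : ∀ u v : Fin 5, ∃ n ∈ List.range 5, (fun x => x - 1)^[n] u = v := by decide
  intro u v
  obtain ⟨n, _, hn⟩ := h2 u v
  rw [← hn]
  exact key n u

theorem strong₁ : IsStrong T₁ := strong_of (by decide)

theorem strong₂ : IsStrong T₂ := strong_of (by decide)

/-- The arc bijection: the identity on common arcs, and `(0, 2) ↦ (2, 0)`. -/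
def φ : Arc T₁ ≃ Arc T₂ where
  toFun a := if h : a.1 = (0, 2) then ⟨(2, 0), by decide⟩ else
    ⟨a.1, by
      have := a.2
      simp only [T₁, T₂, List.mem_cons] at this ⊢
      exact Or.inr (this.resolve_left h)⟩
  invFun a := if h : a.1 = (2, 0) then ⟨(0, 2), by decide⟩ else
    ⟨a.1, by
      have := a.2
      simp only [T₁, T₂, List.mem_cons] at this ⊢
      exact Or.inr (this.resolve_left h)⟩
  left_inv := by
    rintro ⟨a, ha⟩
    by_cases h : a = (0, 2)
    · subst h; simp
    · have h2 : a ≠ (2, 0) := by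
        rintro rfl
        exact absurd ha (by decide)
      simp [h, h2]
  right_inv := by
    rintro ⟨a, ha⟩
    by_cases h : a = (2, 0)
    · subst h; simp
    · have h2 : a ≠ (0, 2) := by
        rintro rfl
        exact absurd ha (by decide)
      simp [h, h2]

theorem no_circuit : ∀ x y : Fin 5, T₁ 2 x → T₁ x y → T₁ y 0 → False := by decide

theorem four_add : ∀ i : ZMod 4, i + 1 + 1 + 1 + 1 = i := by decide

theorem circ (C : Set (Arc T₁)) (hC : IsCircuit T₁ 4 C) : IsCircuit T₂ 4 (φ '' C) := by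
  obtain ⟨h3, v, h, hv, rfl⟩ := hC
  have hne : ∀ i, (v i, v (i + 1)) ≠ (0, 2) := by
    intro i hi
    rw [Prod.mk.injEq] at hi
    have e : i + 1 + 1 + 1 + 1 = i := four_add i
    have a1 := h (i + 1)
    have a2 := h (i + 1 + 1)
    have a3 := h (i + 1 + 1 + 1)
    rw [e, hi.1] at a3
    rw [hi.2] at a1
    exact no_circuit _ _ a1 a2 a3
  have h' : ∀ i, T₂ (v i) (v (i + 1)) := by
    intro i
    have := h i
    simp only [T₁, T₂, List.mem_cons] at this ⊢
    exact Or.inr (this.resolve_left (hne i))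
  refine ⟨h3, v, h', hv, ?_⟩
  rw [← Set.range_comp]
  congr 1
  funext i
  simp only [Function.comp, φ, Equiv.coe_fn_mk]
  rw [dif_neg (hne i)]

/-- `v` has exactly two out-neighbours `a`, `b`, each of which has one out-neighbour. -/
def Q (T : Fin 5 → Fin 5 → Prop) : Prop :=
  ∃ v a b : Fin 5, T v a ∧ T v b ∧ a ≠ b ∧ (∀ x, T v x → x = a ∨ x = b) ∧
    (∀ x y, T a x → T a y → x = y) ∧ ∀ x y, T b x → T b y → x = y

theorem Q_iso {T S : Fin 5 → Fin 5 → Prop} (h : Isomorphic T S) (hS : Q S) : Q T := by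
  obtain ⟨e, he⟩ := h
  obtain ⟨v, a, b, h1, h2, h3, h4, h5, h6⟩ := hS
  refine ⟨e.symm v, e.symm a, e.symm b, (he _ _).2 (by simpa using h1),
    (he _ _).2 (by simpa using h2), fun h => h3 (e.symm.injective h), fun x hx => ?_,
    fun x y hx hy => ?_, fun x y hx hy => ?_⟩
  · have := (he _ _).1 hx
    rw [e.apply_symm_apply] at this
    rcases h4 _ this with h | h
    · left; rw [← h, e.symm_apply_apply]
    · right; rw [← h, e.symm_apply_apply]
  · have hx' := (he _ _).1 hx
    have hy' := (he _ _).1 hy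
    rw [e.apply_symm_apply] at hx' hy'
    exact e.injective (h5 _ _ hx' hy')
  · have hx' := (he _ _).1 hx
    have hy' := (he _ _).1 hy
    rw [e.apply_symm_apply] at hx' hy'
    exact e.injective (h6 _ _ hx' hy')

theorem Q₂ : Q T₂ := by
  unfold Q
  refine ⟨2, 0, 1, ?_⟩
  decide

theorem not_iso₁ : ¬ Isomorphic T₁ T₂ := by
  intro h
  have := Q_iso h Q₂
  revert this
  unfold Q
  decide

theorem not_iso₂ : ¬ Isomorphic (conv T₁) T₂ := by
  intro h
  have := Q_iso h Q₂
  revert this
  unfold Q conv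
  decide

/-- **Negative answer to Q1.** -/
theorem result : IsTournament T₁ ∧ IsTournament T₂ ∧ IsStrong T₁ ∧ IsStrong T₂ ∧
    (∃ φ : Arc T₁ ≃ Arc T₂, ∀ C : Set (Arc T₁), IsCircuit T₁ 4 C → IsCircuit T₂ 4 (φ '' C)) ∧
    ¬ Isomorphic T₁ T₂ ∧ ¬ Isomorphic (conv T₁) T₂ :=
  ⟨tour₁, tour₂, strong₁, strong₂, ⟨φ, circ⟩, not_iso₁, not_iso₂⟩

end Pool.Agent.Results.MP_ebd9af_co.FourCircuits
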